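import Mathlib

set_option autoImplicit false
set_option maxHeartbeats 400000

/-!
# Fixed points of set-valued maps with a gauge whose iterates are summable
-/

namespace Pool.Agent.H93.Reich

open Filter Topology
open scoped NNReal

/-- the sum of the iterates -/
noncomputable def E (φ : ℝ≥0 → ℝ≥0) (t : ℝ≥0) : ℝ := ∑' n, ((φ^[n] t : ℝ≥0) : ℝ)

section gauge
variable {φ : ℝ≥0 → ℝ≥0} (hm : Monotone φ) (hc : ∀ t, ContinuousWithinAt φ (Set.Ici t) t)
  (hs : ∀ t, Summable fun n => φ^[n] t)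

include hm hc in
theorem iter_rc (n : ℕ) (t : ℝ≥0) : ContinuousWithinAt (φ^[n]) (Set.Ici t) t := by
  induction n generalizing t with
  | zero => exact continuousWithinAt_id
  | succ n ih =>
    rw [Function.iterate_succ]
    exact (ih (φ t)).comp (hc t) (fun s hs => hm hs)

include hs in
theorem sum_real (t : ℝ≥0) : Summable fun n => ((φ^[n] t : ℝ≥0) : ℝ) :=
  NNReal.summable_coe.2 (hs t)

include hm hc hs in
theorem E_rc (t : ℝ≥0) (ε : ℝ) (hε : 0 < ε) : ∃ δ : ℝ≥0, 0 < δ ∧ E φ (t + δ) ≤ E φ t + ε := by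
  have hu : Tendsto (fun k : ℕ => t + 1 / ((k : ℝ≥0) + 1)) atTop (𝓝[Set.Ici t] t) := by
    refine tendsto_nhdsWithin_iff.2 ⟨?_, Eventually.of_forall fun k => ?_⟩
    · have := (tendsto_const_nhds (x := t)).add
        (tendsto_one_div_add_atTop_nhds_zero_nat (𝕜 := ℝ≥0))
      simpa using this
    · show t ≤ t + 1 / ((k : ℝ≥0) + 1)
      exact le_self_add
  have h1 : Tendsto (fun k : ℕ => E φ (t + 1 / ((k : ℝ≥0) + 1))) atTop (𝓝 (E φ t)) := by
    refine tendsto_tsum_of_dominated_convergence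
      (bound := fun n => ((φ^[n] (t + 1) : ℝ≥0) : ℝ)) (sum_real hs (t + 1)) ?_ ?_
    · intro n
      exact (NNReal.continuous_coe.tendsto _).comp ((iter_rc hm hc n t).tendsto.comp hu)
    · refine Eventually.of_forall fun k n => ?_
      rw [Real.norm_eq_abs, abs_of_nonneg (NNReal.coe_nonneg _), NNReal.coe_le_coe]
      apply hm.iterate n
      gcongr
      rw [div_le_one (by positivity)]
      exact le_add_self
  obtain ⟨k, hk⟩ := ((tendsto_order.1 h1).2 (E φ t + ε) (by linarith)).exists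
  exact ⟨1 / ((k : ℝ≥0) + 1), by positivity, hk.le⟩

include hs in
theorem E_eq (t : ℝ≥0) : E φ t = t + E φ (φ t) := by
  rw [E, (sum_real hs t).tsum_eq_zero_add, E]
  simp only [Function.iterate_zero, id_eq, Function.iterate_succ, Function.comp_apply]

include hm hs in
theorem E_mono {s t : ℝ≥0} (h : s ≤ t) : E φ s ≤ E φ t :=
  (sum_real hs s).tsum_le_tsum (fun n => by
    rw [NNReal.coe_le_coe]; exact hm.iterate n h) (sum_real hs t)

theorem E_nonneg (t : ℝ≥0) : 0 ≤ E φ t := tsum_nonneg fun _ => NNReal.coe_nonneg _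

include hm hs in
theorem gauge_le (t : ℝ≥0) : φ t ≤ t := by
  by_contra h
  push Not at h
  have h1 : ∀ n, t ≤ φ^[n] t := by
    intro n
    induction n with
    | zero => exact le_refl t
    | succ n ih =>
      have e : φ^[n + 1] t = φ (φ^[n] t) := Function.iterate_succ_apply' φ n t
      rw [e]
      exact h.le.trans (hm ih)
  have h2 : ∀ n, ((φ t : ℝ≥0) : ℝ) ≤ ((φ^[n + 1] t : ℝ≥0) : ℝ) := by
    intro n
    have e : φ^[n + 1] t = φ (φ^[n] t) := Function.iterate_succ_apply' φ n t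
    rw [e, NNReal.coe_le_coe]
    exact hm (h1 n)
  have h3 : Tendsto (fun n : ℕ => ((φ^[n + 1] t : ℝ≥0) : ℝ)) atTop (𝓝 0) :=
    (tendsto_add_atTop_iff_nat (f := fun n : ℕ => ((φ^[n] t : ℝ≥0) : ℝ)) 1).2
      (sum_real hs t).tendsto_atTop_zero
  have h4 : ((φ t : ℝ≥0) : ℝ) ≤ 0 := ge_of_tendsto' h3 h2
  have h5 : ((t : ℝ≥0) : ℝ) < ((φ t : ℝ≥0) : ℝ) := NNReal.coe_lt_coe.2 h
  have h6 : (0 : ℝ) ≤ (t : ℝ) := NNReal.coe_nonneg t
  linarith

end gauge

/-- **Positive direction.** -/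
theorem fixed_point_near.{u} {φ : ℝ≥0 → ℝ≥0} (hm : Monotone φ)
    (hc : ∀ t, ContinuousWithinAt φ (Set.Ici t) t) (hs : ∀ t, Summable fun n => φ^[n] t)
    (X : Type u) [MetricSpace X] [CompleteSpace X] (T : X → Set X)
    (hT : ∀ x, (T x).Nonempty ∧ IsClosed (T x) ∧ Bornology.IsBounded (T x))
    (hH : ∀ x y, Metric.hausdorffDist (T x) (T y) ≤ φ (nndist x y))
    (x0 y0 : X) (hy0 : y0 ∈ T x0) (η : ℝ) (hη : 0 < η) :
    ∃ z, z ∈ T z ∧ dist x0 z ≤ E φ (nndist x0 y0) + η := by
  classical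
  have hfin : ∀ x y, Metric.hausdorffEDist (T x) (T y) ≠ ⊤ := fun x y =>
    Metric.hausdorffEDist_ne_top_of_nonempty_of_bounded (hT x).1 (hT y).1 (hT x).2.2 (hT y).2.2
  -- one step
  have step : ∀ (ε : ℝ), 0 < ε → ∀ x y : X, y ∈ T x → ∃ z ∈ T y,
      dist x y ≤ E φ (nndist x y) - E φ (nndist y z) + ε := by
    intro ε hε x y hy
    obtain ⟨δ, hδ, hE⟩ := E_rc hm hc hs (φ (nndist x y)) ε hε
    have h1 : Metric.infDist y (T y) ≤ φ (nndist x y) :=
      (Metric.infDist_le_hausdorffDist_of_mem hy (hfin x y)).trans (hH x y)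
    have h2 : Metric.infDist y (T y) < ((φ (nndist x y) + δ : ℝ≥0) : ℝ) := by
      refine lt_of_le_of_lt h1 ?_
      rw [NNReal.coe_lt_coe]
      exact lt_add_of_pos_right _ hδ
    obtain ⟨z, hz, hyz⟩ := (Metric.infDist_lt_iff (hT y).1).1 h2
    refine ⟨z, hz, ?_⟩
    have h3 : nndist y z ≤ φ (nndist x y) + δ := by
      rw [← NNReal.coe_le_coe, coe_nndist]; exact hyz.le
    have h4 := E_mono hm hs h3
    have h5 := E_eq hs (nndist x y)
    rw [coe_nndist] at h5
    linarith
  choose! F hF1 hF2 using fun (n : ℕ) => step (η / 2 * (1 / 2) ^ n) (by positivity)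
  let p : ℕ → X × X := fun n => Nat.rec (x0, y0) (fun n q => (q.2, F n q.1 q.2)) n
  have hp0 : p 0 = (x0, y0) := rfl
  have hps : ∀ n, p (n + 1) = ((p n).2, F n (p n).1 (p n).2) := fun n => rfl
  have hmem : ∀ n, (p n).2 ∈ T (p n).1 := by
    intro n
    induction n with
    | zero => exact hy0
    | succ n ih => rw [hps]; exact hF1 n _ _ ih
  set x : ℕ → X := fun n => (p n).1 with hx
  have hx1 : ∀ n, (p n).2 = x (n + 1) := fun n => rfl
  have hxT : ∀ n, x (n + 1) ∈ T (x n) := fun n => by rw [← hx1]; exact hmem n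
  have hest : ∀ n, dist (x n) (x (n + 1)) ≤ E φ (nndist (x n) (x (n + 1)))
      - E φ (nndist (x (n + 1)) (x (n + 2))) + η / 2 * (1 / 2) ^ n := by
    intro n
    have h := hF2 n (p n).1 (p n).2 (hmem n)
    have e1 : F n (p n).1 (p n).2 = x (n + 2) := by
      rw [← hx1 (n + 1), hps]
    rw [e1, hx1 n] at h
    exact h
  have hsum : ∀ N, ∑ n ∈ Finset.range N, dist (x n) (x (n + 1)) ≤ E φ (nndist (x 0) (x 1)) + η := by
    intro N
    have h1 : ∀ N, ∑ n ∈ Finset.range N, dist (x n) (x (n + 1)) ≤ E φ (nndist (x 0) (x 1))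
        - E φ (nndist (x N) (x (N + 1))) + η / 2 * ∑ n ∈ Finset.range N, (1 / 2 : ℝ) ^ n := by
      intro N
      induction N with
      | zero => simp
      | succ N ih =>
        rw [Finset.sum_range_succ, Finset.sum_range_succ, mul_add]
        have := hest N
        linarith
    have h2 := h1 N
    have h3 := E_nonneg (φ := φ) (nndist (x N) (x (N + 1)))
    have h4 : ∑ n ∈ Finset.range N, (1 / 2 : ℝ) ^ n ≤ 2 := by
      have := (summable_geometric_two).sum_le_tsum (Finset.range N) (fun n _ => by positivity)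
      rw [tsum_geometric_two] at this
      exact this
    have h5 : η / 2 * ∑ n ∈ Finset.range N, (1 / 2 : ℝ) ^ n ≤ η / 2 * 2 :=
      mul_le_mul_of_nonneg_left h4 (by positivity)
    linarith
  have hsummable : Summable fun n => dist (x n) (x (n + 1)) :=
    summable_of_sum_range_le (fun _ => dist_nonneg) hsum
  have hcau : CauchySeq x := cauchySeq_of_summable_dist hsummable
  obtain ⟨z, hz⟩ := cauchySeq_tendsto_of_complete hcau
  refine ⟨z, ?_, (dist_le_tsum_dist_of_tendsto₀ hsummable hz).trans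
    (Real.tsum_le_of_sum_range_le (fun _ => dist_nonneg) hsum)⟩
  rw [(hT z).2.1.mem_iff_infDist_zero (hT z).1]
  have hle : ∀ n, Metric.infDist z (T z) ≤ dist z (x (n + 1)) + dist (x n) z := by
    intro n
    have h1 : Metric.infDist z (T z) ≤ Metric.infDist (x (n + 1)) (T z) + dist z (x (n + 1)) :=
      Metric.infDist_le_infDist_add_dist
    have h2 : Metric.infDist (x (n + 1)) (T z) ≤ φ (nndist (x n) z) :=
      (Metric.infDist_le_hausdorffDist_of_mem (hxT n) (hfin _ _)).trans (hH _ _)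
    have h3 : ((φ (nndist (x n) z) : ℝ≥0) : ℝ) ≤ dist (x n) z := by
      rw [← coe_nndist, NNReal.coe_le_coe]
      exact gauge_le hm hs _
    linarith
  have hlim : Tendsto (fun n => dist z (x (n + 1)) + dist (x n) z) atTop (𝓝 0) := by
    have h1 : Tendsto (fun n => dist z (x (n + 1))) atTop (𝓝 0) := by
      have := (tendsto_iff_dist_tendsto_zero.1 ((tendsto_add_atTop_iff_nat 1).2 hz))
      simpa [dist_comm] using this
    have h2 : Tendsto (fun n => dist (x n) z) atTop (𝓝 0) := tendsto_iff_dist_tendsto_zero.1 hz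
    simpa using h1.add h2
  exact le_antisymm (ge_of_tendsto' hlim hle) Metric.infDist_nonneg

end Pool.Agent.H93.Reich
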