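import Pool.Agent.H93.Reich.Tree
import Pool.Agent.H93.Reich.Orbit

set_option autoImplicit false
set_option maxHeartbeats 400000

/-!
# Gauges whose iterates are not summable
-/

namespace Pool.Agent.H93.Reich

open Filter Topology
open scoped NNReal

/-- there is a counterexample for the gauge `φ`, on a bounded complete space -/
def Counter (φ : ℝ≥0 → ℝ≥0) : Prop :=
  ∃ (X : Type) (_ : MetricSpace X) (_ : CompleteSpace X) (_ : Nonempty X) (T : X → Set X),
    Bornology.IsBounded (Set.univ : Set X) ∧ (∀ x, (T x).Nonempty ∧ IsClosed (T x)) ∧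
    (∀ x y, Metric.hausdorffDist (T x) (T y) ≤ φ (nndist x y)) ∧ ∀ x, x ∉ T x

/-- two points -/
theorem counter_two {φ : ℝ≥0 → ℝ≥0} (t : ℝ≥0) (ht : 0 < t) (h : t ≤ φ t) : Counter φ := by
  let Y : Set ℝ := {0, (t : ℝ)}
  have hfin : Y.Finite := by simp [Y]
  have ht' : (0 : ℝ) < t := NNReal.coe_pos.2 ht
  have hd : ∀ x y : Y, x ≠ y → dist x y = t := by
    rintro ⟨x, hx⟩ ⟨y, hy⟩ hne
    have hx' : x = 0 ∨ x = (t : ℝ) := hx
    have hy' : y = 0 ∨ y = (t : ℝ) := hy
    have hne' : x ≠ y := fun e => hne (Subtype.ext e)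
    rw [Subtype.dist_eq, Real.dist_eq]
    rcases hx' with rfl | rfl <;> rcases hy' with rfl | rfl
    · exact absurd rfl hne'
    · rw [zero_sub, abs_neg, abs_of_pos ht']
    · rw [sub_zero, abs_of_pos ht']
    · exact absurd rfl hne'
  have hle : ∀ x y : Y, dist x y ≤ t := by
    intro x y
    by_cases e : x = y
    · rw [e, dist_self]; exact ht'.le
    · exact (hd x y e).le
  have : CompleteSpace Y := hfin.isClosed.completeSpace_coe
  have : Finite Y := hfin
  have hne : ∀ x : Y, ∃ y : Y, y ≠ x := by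
    intro x
    by_cases e : x = ⟨0, by simp [Y]⟩
    · refine ⟨⟨(t : ℝ), by simp [Y]⟩, ?_⟩
      rw [e]
      intro h'
      exact ht'.ne' (congrArg Subtype.val h')
    · exact ⟨⟨0, by simp [Y]⟩, fun h' => e h'.symm⟩
  refine ⟨Y, inferInstance, inferInstance, ⟨⟨0, by simp [Y]⟩⟩, fun x => {y | y ≠ x}, ?_, ?_, ?_, ?_⟩
  · exact (Set.toFinite _).isBounded
  · intro x
    exact ⟨hne x, (Set.toFinite _).isClosed⟩
  · intro x y
    by_cases e : x = y
    · rw [e, Metric.hausdorffDist_self_zero]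
      exact NNReal.coe_nonneg _
    · have h1 : nndist x y = t := by
        rw [← NNReal.coe_inj, coe_nndist]; exact hd x y e
      rw [h1]
      refine le_trans ?_ (NNReal.coe_le_coe.2 h)
      apply Metric.hausdorffDist_le_of_mem_dist ht'.le
      · intro z _
        obtain ⟨u, hu⟩ := hne y
        exact ⟨u, hu, hle _ _⟩
      · intro z _
        obtain ⟨u, hu⟩ := hne x
        exact ⟨u, hu, hle _ _⟩
  · intro x hx
    exact hx rfl

/-- **Negative direction.** -/
theorem counter {φ : ℝ≥0 → ℝ≥0} (hm : Monotone φ) (t0 : ℝ≥0)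
    (hns : ¬ Summable fun n => φ^[n] t0) : Counter φ := by
  by_cases hA : ∃ t : ℝ≥0, 0 < t ∧ t ≤ φ t
  · obtain ⟨t, h1, h2⟩ := hA
    exact counter_two t h1 h2
  push Not at hA
  have h0 : φ 0 = 0 := by
    by_contra h
    have h1 : 0 < φ 0 := pos_iff_ne_zero.2 h
    exact absurd (hm h1.le) (not_le.2 (hA _ h1))
  have hle : ∀ t, φ t ≤ t := by
    intro t
    rcases eq_or_lt_of_le (zero_le (a := t)) with h | h
    · rw [← h, h0]
    · exact (hA t h).le
  have hs : ∀ n, φ^[n + 1] t0 = φ (φ^[n] t0) := fun n => Function.iterate_succ_apply' φ n t0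
  have hreal : ¬ Summable fun n => ((φ^[n] t0 : ℝ≥0) : ℝ) := fun h => hns (NNReal.summable_coe.1 h)
  have hpos : ∀ n, 0 < φ^[n] t0 := by
    intro n
    by_contra h
    have hz : φ^[n] t0 = 0 := le_antisymm (not_lt.1 h) zero_le
    apply hreal
    apply (summable_nat_add_iff n).1
    have : ∀ k, φ^[k + n] t0 = 0 := by
      intro k
      induction k with
      | zero => rw [Nat.zero_add]; exact hz
      | succ k ih => rw [Nat.add_right_comm, hs, ih, h0]
    simp only [this, NNReal.coe_zero]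
    exact summable_zero
  let w : Wt :=
    { a := fun n => ((φ^[n] t0 : ℝ≥0) : ℝ)
      pos := fun n => NNReal.coe_pos.2 (hpos n)
      anti := antitone_nat_of_succ_le fun n => by
        rw [NNReal.coe_le_coe, hs]; exact hle _
      div := hreal }
  refine ⟨Tr w, inferInstance, inferInstance, inferInstance, T w, ?_, ?_, ?_, not_fixed w⟩
  · exact Metric.isBounded_iff.2 ⟨w.a 0, fun x _ y _ => dist_le w x y⟩
  · exact fun x => ⟨T_nonempty w x, isClosed_any w _⟩
  · intro x y
    have h1 := hausdorff_le w (fun r => ((φ r.toNNReal : ℝ≥0) : ℝ)) (fun n _ => by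
        show ((φ^[n + 1] t0 : ℝ≥0) : ℝ) ≤ ((φ (Real.toNNReal ((φ^[n] t0 : ℝ≥0) : ℝ)) : ℝ≥0) : ℝ)
        rw [Real.toNNReal_coe, hs])
      (fun s t _ hst => NNReal.coe_le_coe.2 (hm (Real.toNNReal_le_toNNReal hst))) x y
    have h2 := ENNReal.toReal_le_of_le_ofReal (NNReal.coe_nonneg _) h1
    rw [nndist_dist]
    exact h2

end Pool.Agent.H93.Reich
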