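import Pool.Agent.H93.Reich.Exact

set_option autoImplicit false
set_option maxHeartbeats 400000

/-!
# The gauges `t - κ min (t, 1) ^ p`
-/

namespace Pool.Agent.H93.Reich

open Filter Topology
open scoped NNReal

/-- the gauge `t - κ min (t, 1) ^ p` -/
noncomputable def g (κ : ℝ≥0) (p : ℝ) (t : ℝ≥0) : ℝ≥0 := t - κ * (min t 1) ^ p

variable {κ : ℝ≥0} {p : ℝ}

theorem sub_le (hκ : κ ≤ 1) (hp : 1 ≤ p) (t : ℝ≥0) : κ * (min t 1) ^ p ≤ t := by
  have h1 : (min t 1) ^ p ≤ min t 1 := NNReal.rpow_le_self_of_le_one (min_le_right _ _) hp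
  calc κ * (min t 1) ^ p ≤ 1 * (min t 1) := mul_le_mul' hκ h1
    _ ≤ t := by rw [one_mul]; exact min_le_left _ _

theorem g_coe (hκ : κ ≤ 1) (hp : 1 ≤ p) (t : ℝ≥0) :
    ((g κ p t : ℝ≥0) : ℝ) = t - κ * (min (t : ℝ) 1) ^ p := by
  rw [g, NNReal.coe_sub (sub_le hκ hp t), NNReal.coe_mul, NNReal.coe_rpow, NNReal.coe_min,
    NNReal.coe_one]

theorem bern {a b : ℝ} (ha : 0 ≤ a) (hab : a ≤ b) (hb : b ≤ 1) (hp : 1 ≤ p) :
    b ^ p - a ^ p ≤ p * (b - a) := by
  rcases eq_or_lt_of_le (ha.trans hab) with h | h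
  · have h' : a = 0 := le_antisymm (by rw [h]; exact hab) ha
    rw [h', ← h]; simp
  · have h1 : 1 + p * (a / b - 1) ≤ (a / b) ^ p := by
      have := one_add_mul_self_le_rpow_one_add (s := a / b - 1) (by
        have : 0 ≤ a / b := by positivity
        linarith) hp
      rwa [add_sub_cancel] at this
    have h2 : a ^ p = (a / b) ^ p * b ^ p := by
      rw [← Real.mul_rpow (by positivity) h.le, div_mul_cancel₀ _ h.ne']
    have h3 : 0 ≤ b ^ p := by positivity
    have h4 : b ^ p ≤ b := Real.rpow_le_self_of_le_one h.le hb hp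
    have h5 : 0 ≤ 1 - a / b := by
      rw [sub_nonneg, div_le_one h]; exact hab
    have h6 : (1 - a / b) * b = b - a := by field_simp
    have h7 := mul_le_mul_of_nonneg_right h1 h3
    have h8 : p * ((1 - a / b) * b ^ p) ≤ p * ((1 - a / b) * b) := by gcongr
    rw [h6] at h8
    nlinarith

theorem g_mono (hκ : κ ≤ 1) (hp : 1 ≤ p) (hκp : (κ : ℝ) * p ≤ 1) : Monotone (g κ p) := by
  intro s t hst
  rw [← NNReal.coe_le_coe, g_coe hκ hp, g_coe hκ hp]
  have hst' : (s : ℝ) ≤ t := NNReal.coe_le_coe.2 hst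
  have h1 : min (s : ℝ) 1 ≤ min (t : ℝ) 1 := min_le_min_right _ hst'
  have h2 : min (t : ℝ) 1 - min (s : ℝ) 1 ≤ t - s := by
    rcases le_total (t : ℝ) 1 with h | h
    · rw [min_eq_left h, min_eq_left (hst'.trans h)]
    · rw [min_eq_right h]
      rcases le_total (s : ℝ) 1 with h' | h'
      · rw [min_eq_left h']; linarith
      · rw [min_eq_right h']; linarith
  have h3 := bern (p := p) (le_min s.coe_nonneg zero_le_one) h1 (min_le_right _ _) hp
  have h4 : (κ : ℝ) * ((min (t : ℝ) 1) ^ p - (min (s : ℝ) 1) ^ p) ≤ t - s := by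
    calc (κ : ℝ) * ((min (t : ℝ) 1) ^ p - (min (s : ℝ) 1) ^ p)
        ≤ κ * (p * (min (t : ℝ) 1 - min (s : ℝ) 1)) := by gcongr
      _ = (κ * p) * (min (t : ℝ) 1 - min (s : ℝ) 1) := by ring
      _ ≤ 1 * (min (t : ℝ) 1 - min (s : ℝ) 1) := by
          apply mul_le_mul_of_nonneg_right hκp; linarith
      _ ≤ t - s := by linarith
  linarith

theorem g_cont (hp : 1 ≤ p) : Continuous (g κ p) := by
  have := NNReal.continuous_rpow_const (y := p) (by linarith)
  exact continuous_id.sub (continuous_const.mul (this.comp (continuous_id.min continuous_const)))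

theorem g_sum (h0 : 0 < κ) (hκ : κ ≤ 1) (hp : 1 ≤ p) (hp2 : p < 2) (t : ℝ≥0) :
    Summable fun n => (g κ p)^[n] t := by
  rw [← NNReal.summable_coe]
  set u : ℕ → ℝ := fun n => (((g κ p)^[n] t : ℝ≥0) : ℝ) with hu
  have hR : (1 : ℝ) ≤ max (t : ℝ) 1 := le_max_right _ _
  have ht : (t : ℝ) ≤ max (t : ℝ) 1 := le_max_left _ _
  generalize max (t : ℝ) 1 = R at hR ht
  have h0' : (0 : ℝ) < κ := NNReal.coe_pos.2 h0
  have hun : ∀ n, u (n + 1) = u n - κ * (min (u n) 1) ^ p := fun n => by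
    simp only [hu, Function.iterate_succ_apply', g_coe hκ hp]
  have hu0 : ∀ n, 0 ≤ u n := fun n => NNReal.coe_nonneg _
  have huR : ∀ n, u n ≤ R := by
    intro n
    induction n with
    | zero => exact ht
    | succ n ih =>
      rw [hun]
      have h1 : 0 ≤ min (u n) 1 := le_min (hu0 n) zero_le_one
      have : 0 ≤ (κ : ℝ) * (min (u n) 1) ^ p := by positivity
      linarith
  have hR0 : 0 < R := by linarith
  obtain ⟨c, hc⟩ : ∃ c : ℝ, c = κ / R ^ p := ⟨_, rfl⟩
  have hc0 : 0 < c := by rw [hc]; positivity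
  have hstep : ∀ n, u (n + 1) ≤ u n - c * u n ^ p := by
    intro n
    rw [hun]
    have h1 : u n / R ≤ min (u n) 1 := by
      apply le_min
      · exact div_le_self (hu0 n) hR
      · exact (div_le_one hR0).2 (huR n)
    have h2 : (u n / R) ^ p ≤ (min (u n) 1) ^ p :=
      Real.rpow_le_rpow (div_nonneg (hu0 n) hR0.le) h1 (by linarith)
    have h3 : (u n / R) ^ p = u n ^ p / R ^ p := Real.div_rpow (hu0 n) hR0.le _
    have h4 : c * u n ^ p = κ * (u n / R) ^ p := by rw [h3, hc]; ring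
    rw [h4]
    have := mul_le_mul_of_nonneg_left h2 κ.coe_nonneg
    linarith
  obtain ⟨q, hq⟩ : ∃ q : ℝ, q = 2 - p := ⟨_, rfl⟩
  have hq0 : 0 < q := by linarith
  have hq1 : q ≤ 1 := by linarith
  have key : ∀ n, c * q * u n ≤ u n ^ q - u (n + 1) ^ q := by
    intro n
    rcases eq_or_lt_of_le (hu0 n) with h | h
    · have h1 := hstep n
      rw [← h, Real.zero_rpow (by linarith)] at h1
      have h2 : u (n + 1) = 0 := le_antisymm (by linarith) (hu0 _)
      rw [← h, h2]; simp
    · have h1 : (u (n + 1) / u n) ^ q ≤ 1 + q * (u (n + 1) / u n - 1) := by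
        have := rpow_one_add_le_one_add_mul_self (s := u (n + 1) / u n - 1) (by
          have : 0 ≤ u (n + 1) / u n := div_nonneg (hu0 _) h.le
          linarith) hq0.le hq1
        rwa [add_sub_cancel] at this
      have h2 : u (n + 1) ^ q = (u (n + 1) / u n) ^ q * u n ^ q := by
        rw [← Real.mul_rpow (div_nonneg (hu0 _) h.le) h.le, div_mul_cancel₀ _ h.ne']
      have h3 : 0 < u n ^ q := Real.rpow_pos_of_pos h _
      have h4 := mul_le_mul_of_nonneg_right h1 h3.le
      have h5 : (u (n + 1) / u n - 1) * u n ^ q ≤ - c * u n := by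
        have e1 : (u (n + 1) / u n - 1) * u n ^ q = (u (n + 1) - u n) * (u n ^ q / u n) := by
          field_simp
        have e2 : u n ^ p * (u n ^ q / u n) = u n := by
          rw [← mul_div_assoc, ← Real.rpow_add h, hq]
          rw [show p + (2 - p) = (2 : ℝ) by ring, Real.rpow_two, pow_two,
            mul_div_assoc, div_self h.ne', mul_one]
        rw [e1]
        have h6 : (u (n + 1) - u n) * (u n ^ q / u n) ≤ (- (c * u n ^ p)) * (u n ^ q / u n) := by
          apply mul_le_mul_of_nonneg_right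
          · linarith [hstep n]
          · positivity
        have e3 : (- (c * u n ^ p)) * (u n ^ q / u n) = - c * (u n ^ p * (u n ^ q / u n)) := by ring
        rw [e3, e2] at h6
        exact h6
      have h7 := mul_le_mul_of_nonneg_left h5 hq0.le
      rw [← h2] at h4
      nlinarith
  refine summable_of_sum_range_le (c := u 0 ^ q / (c * q)) hu0 (fun N => ?_)
  have hN : c * q * ∑ n ∈ Finset.range N, u n ≤ u 0 ^ q - u N ^ q := by
    induction N with
    | zero => simp
    | succ N ih =>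
      rw [Finset.sum_range_succ, mul_add]
      linarith [key N]
  rw [le_div_iff₀ (by positivity)]
  have : 0 ≤ u N ^ q := Real.rpow_nonneg (hu0 N) _
  linarith

theorem g_two_not (hκ : κ ≤ 1 / 2) : ¬ Summable fun n => (g κ 2)^[n] 1 := by
  have hκ1 : κ ≤ 1 := hκ.trans (by
    rw [← NNReal.coe_le_coe]; push_cast; norm_num)
  have hκ2 : (κ : ℝ) ≤ 1 / 2 := by
    have := NNReal.coe_le_coe.2 hκ
    push_cast at this
    exact this
  have hm : Monotone (g κ 2) := g_mono hκ1 (by norm_num) (by linarith)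
  have h1 : ∀ n : ℕ, 1 / ((n : ℝ≥0) + 1) ≤ (g κ 2)^[n] 1 := by
    intro n
    induction n with
    | zero => simp
    | succ n ih =>
      rw [Function.iterate_succ_apply']
      refine le_trans ?_ (hm ih)
      rw [← NNReal.coe_le_coe, g_coe hκ1 (by norm_num)]
      push_cast
      have hn : (0 : ℝ) < (n : ℝ) + 1 := by positivity
      rw [min_eq_left ((div_le_one hn).2 (by linarith)), Real.rpow_two]
      have h2 : (κ : ℝ) * (1 / ((n : ℝ) + 1)) ^ 2 ≤ 1 / 2 * (1 / ((n : ℝ) + 1)) ^ 2 := by gcongr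
      have h3 : (1 : ℝ) / ((n : ℝ) + 1 + 1) ≤ 1 / ((n : ℝ) + 1) - 1 / 2 * (1 / ((n : ℝ) + 1)) ^ 2 := by
        have e : 1 / ((n : ℝ) + 1) - 1 / 2 * (1 / ((n : ℝ) + 1)) ^ 2 - 1 / ((n : ℝ) + 1 + 1)
            = (n : ℝ) / (2 * ((n : ℝ) + 1) ^ 2 * ((n : ℝ) + 1 + 1)) := by
          field_simp
          ring
        have : 0 ≤ (n : ℝ) / (2 * ((n : ℝ) + 1) ^ 2 * ((n : ℝ) + 1 + 1)) := by positivity
        linarith
      linarith
  intro hs
  have h2 : Summable fun n : ℕ => 1 / ((n : ℝ≥0) + 1) := NNReal.summable_of_le h1 hs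
  have h3 : Summable fun n : ℕ => 1 / ((n : ℝ) + 1) := by
    have := NNReal.summable_coe.2 h2
    push_cast at this
    exact this
  have h4 : Summable fun n : ℕ => 1 / (n : ℝ) := by
    apply (summable_nat_add_iff 1).1
    push_cast
    exact h3
  exact Real.not_summable_one_div_natCast h4

end Pool.Agent.H93.Reich
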