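import Mathlib

set_option autoImplicit false

/-!
# A complete metric tree and a set-valued map without fixed points

The points are the finite sequences of natural numbers (lists), the root is the empty sequence,
the children of `x` are the sequences `i :: x`. The edge between a point of level `n` and a child
has length `a (n + 1)`; the distance is the path distance, cut off at `a 0`. The map sends `x` to
the set of all points that are neither `x` nor an ancestor of `x`.
-/

namespace Pool.Agent.H93.Reich

open Finset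

/-- edge lengths: positive, nonincreasing, with infinite sum -/
structure Wt where
  a : ℕ → ℝ
  pos : ∀ n, 0 < a n
  anti : Antitone a
  div : ¬ Summable a

/-- the ancestors of `x`, and `x` itself -/
def A (x : List ℕ) : Finset (List ℕ) := x.tails.toFinset

theorem mem_A {x z : List ℕ} : z ∈ A x ↔ z <:+ x := by simp [A]

theorem self_mem (x : List ℕ) : x ∈ A x := mem_A.2 (List.suffix_refl x)

theorem A_nil : A [] = {[]} := by
  ext z; simp [mem_A]

theorem A_cons (i : ℕ) (x : List ℕ) : A (i :: x) = insert (i :: x) (A x) := by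
  ext z; rw [mem_insert, mem_A, mem_A, List.suffix_cons_iff]

theorem not_mem_cons (i : ℕ) (x : List ℕ) : i :: x ∉ A x := by
  intro h
  have := (mem_A.1 h).length_le
  simp at this

theorem nil_mem (x : List ℕ) : [] ∈ A x := mem_A.2 (List.nil_suffix)

variable (w : Wt)

/-- path distance -/
noncomputable def D (x y : List ℕ) : ℝ := ∑ z ∈ symmDiff (A x) (A y), w.a z.length

/-- distance to the root (plus `a 0`) -/
noncomputable def S (x : List ℕ) : ℝ := ∑ z ∈ A x, w.a z.length

theorem S_eq (x : List ℕ) : S w x = ∑ i ∈ range (x.length + 1), w.a i := by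
  induction x with
  | nil => simp [S, A_nil]
  | cons i x ih =>
    rw [S, A_cons, sum_insert (not_mem_cons i x), ← S, ih, List.length_cons,
      sum_range_succ _ (x.length + 1), add_comm]

theorem exists_len (B : ℝ) : ∃ M : ℕ, ∀ x : List ℕ, S w x ≤ B → x.length + 1 < M := by
  have h := (not_summable_iff_tendsto_nat_atTop_of_nonneg (fun n => (w.pos n).le)).1 w.div
  obtain ⟨M, hM⟩ := (Filter.tendsto_atTop_atTop.1 h) (B + 1)
  refine ⟨M, fun x hx => ?_⟩
  by_contra hlt
  have := hM (x.length + 1) (by omega)
  rw [S_eq] at hx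
  linarith

theorem D_nonneg (x y : List ℕ) : 0 ≤ D w x y := sum_nonneg fun _ _ => (w.pos _).le

theorem D_self (x : List ℕ) : D w x x = 0 := by simp [D]

theorem D_comm (x y : List ℕ) : D w x y = D w y x := by rw [D, D, symmDiff_comm]

theorem D_triangle (x y z : List ℕ) : D w x z ≤ D w x y + D w y z := by
  have h1 : symmDiff (A x) (A z) ⊆ symmDiff (A x) (A y) ∪ symmDiff (A y) (A z) :=
    symmDiff_triangle (A x) (A y) (A z)
  have h2 : D w x z ≤ ∑ u ∈ symmDiff (A x) (A y) ∪ symmDiff (A y) (A z), w.a u.length :=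
    sum_le_sum_of_subset_of_nonneg h1 fun _ _ _ => (w.pos _).le
  have h3 : ∑ u ∈ symmDiff (A x) (A y) ∪ symmDiff (A y) (A z), w.a u.length
      ≤ D w x y + D w y z := by
    rw [D, D, ← sum_union_inter]
    exact le_add_of_nonneg_right (sum_nonneg fun _ _ => (w.pos _).le)
  exact h2.trans h3

theorem le_D {x y z : List ℕ} (h : z ∈ symmDiff (A x) (A y)) : w.a z.length ≤ D w x y :=
  single_le_sum (f := fun u : List ℕ => w.a u.length) (fun _ _ => (w.pos _).le) h

theorem S_sub_le (x y : List ℕ) : S w x - S w y ≤ D w x y := by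
  have h1 : S w x ≤ ∑ u ∈ symmDiff (A x) (A y) ∪ A y, w.a u.length := by
    refine sum_le_sum_of_subset_of_nonneg ?_ fun _ _ _ => (w.pos _).le
    intro z hz
    rw [mem_union, mem_symmDiff]
    by_cases h : z ∈ A y
    · exact Or.inr h
    · exact Or.inl (Or.inl ⟨hz, h⟩)
  have h2 : ∑ u ∈ symmDiff (A x) (A y) ∪ A y, w.a u.length ≤ D w x y + S w y := by
    rw [D, S, ← sum_union_inter]
    exact le_add_of_nonneg_right (sum_nonneg fun _ _ => (w.pos _).le)
  linarith

/-- distinct points are not too close -/
theorem gap {x y : List ℕ} (h : x ≠ y) : w.a (x.length + 1) ≤ D w x y := by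
  by_cases hx : x ∈ A y
  · obtain ⟨t, ht⟩ := mem_A.1 hx
    have hne : t ≠ [] := by rintro rfl; exact h ht
    obtain ⟨t', i, rfl⟩ := (List.eq_nil_or_concat t).resolve_left hne
    have h1 : i :: x ∈ A y := mem_A.2 ⟨t', by rw [← ht]; simp⟩
    have h2 : i :: x ∉ A x := not_mem_cons i x
    have := le_D w (z := i :: x) (x := x) (y := y) (mem_symmDiff.2 (Or.inr ⟨h1, h2⟩))
    simpa using this
  · have := le_D w (z := x) (x := x) (y := y) (mem_symmDiff.2 (Or.inl ⟨self_mem x, hx⟩))
    exact (w.anti (Nat.le_succ _)).trans this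

theorem D_cons (i : ℕ) (x : List ℕ) : D w x (i :: x) = w.a (x.length + 1) := by
  have : symmDiff (A x) (A (i :: x)) = {i :: x} := by
    ext z
    rw [mem_symmDiff, A_cons, mem_insert, mem_singleton]
    constructor
    · rintro (⟨h1, h2⟩ | ⟨h1, h2⟩)
      · exact absurd (Or.inr h1) h2
      · exact h1.resolve_right h2
    · rintro rfl
      exact Or.inr ⟨Or.inl rfl, not_mem_cons i x⟩
  rw [D, this, sum_singleton, List.length_cons]

/-- the tree -/
def Tr (_ : Wt) : Type := List ℕ

noncomputable instance : MetricSpace (Tr w) where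
  dist x y := min (w.a 0) (D w x y)
  dist_self x := by
    show min (w.a 0) (D w x x) = 0
    rw [D_self]; exact min_eq_right (w.pos 0).le
  dist_comm x y := by
    show min (w.a 0) (D w x y) = min (w.a 0) (D w y x)
    rw [D_comm]
  dist_triangle x y z := by
    show min (w.a 0) (D w x z) ≤ min (w.a 0) (D w x y) + min (w.a 0) (D w y z)
    have h0 := w.pos 0
    have h1 := D_nonneg w x y
    have h2 := D_nonneg w y z
    have h3 := D_triangle w x y z
    rcases le_total (w.a 0) (D w x y) with h | h
    · rw [min_eq_left h]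
      exact (min_le_left _ _).trans (le_add_of_nonneg_right (le_min h0.le h2))
    · rcases le_total (w.a 0) (D w y z) with h' | h'
      · rw [min_eq_left h']
        exact (min_le_left _ _).trans (le_add_of_nonneg_left (le_min h0.le h1))
      · rw [min_eq_right h, min_eq_right h']
        exact (min_le_right _ _).trans h3
  eq_of_dist_eq_zero := by
    intro x y h
    by_contra hne
    have h1 : min (w.a 0) (D w x y) = 0 := h
    have h2 := (w.pos (x.length + 1)).trans_le (gap w hne)
    have h3 : 0 < min (w.a 0) (D w x y) := lt_min (w.pos 0) h2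
    linarith

theorem dist_def (x y : Tr w) : dist x y = min (w.a 0) (D w x y) := rfl

instance : Nonempty (Tr w) := ⟨([] : List ℕ)⟩

theorem gap' {x y : Tr w} (h : x ≠ y) : w.a (List.length x + 1) ≤ dist x y :=
  le_min (w.anti (Nat.zero_le _)) (gap w h)

theorem dist_le (x y : Tr w) : dist x y ≤ w.a 0 := min_le_left _ _

theorem isOpen_any (s : Set (Tr w)) : IsOpen s := by
  rw [Metric.isOpen_iff]
  intro x hx
  refine ⟨w.a (List.length x + 1), w.pos _, fun y hy => ?_⟩
  have : x = y := by
    by_contra hne
    have h1 := gap' w hne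
    rw [Metric.mem_ball, dist_comm] at hy
    linarith
  exact this ▸ hx

theorem isClosed_any (s : Set (Tr w)) : IsClosed s := ⟨isOpen_any w _⟩

instance : CompleteSpace (Tr w) := by
  refine Metric.complete_of_cauchySeq_tendsto fun u hu => ?_
  obtain ⟨N, hN⟩ := Metric.cauchySeq_iff'.1 hu (w.a 0) (w.pos 0)
  obtain ⟨M, hM⟩ := exists_len w (S w (u N) + w.a 0)
  have hlen : ∀ k ≥ N, List.length (u k) + 1 < M := by
    intro k hk
    apply hM
    have h1 := hN k hk
    rw [dist_def] at h1
    have h2 : D w (u k) (u N) < w.a 0 := by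
      rcases min_lt_iff.1 h1 with h | h
      · exact absurd h (lt_irrefl _)
      · exact h
    have h3 := S_sub_le w (u k) (u N)
    linarith
  obtain ⟨N', hN'⟩ := Metric.cauchySeq_iff.1 hu (w.a M) (w.pos M)
  refine ⟨u (max N N'), tendsto_const_nhds.congr' ?_⟩
  filter_upwards [Filter.eventually_ge_atTop (max N N')] with k hk
  by_contra hne
  have h1 := gap' w hne
  have h2 := hN' (max N N') (le_max_right _ _) k ((le_max_right _ _).trans hk)
  have h3 := w.anti (hlen (max N N') (le_max_left _ _)).le
  linarith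

/-- the map: all points except `x` and its ancestors -/
def T (x : Tr w) : Set (Tr w) := {z : List ℕ | z ∉ A x}

theorem mem_T {x z : Tr w} : z ∈ T w x ↔ (z : List ℕ) ∉ A (x : List ℕ) := Iff.rfl

theorem not_fixed (x : Tr w) : x ∉ T w x := fun h => h (self_mem x)

theorem T_nonempty (x : Tr w) : (T w x).Nonempty := ⟨((0 : ℕ) :: x : List ℕ), not_mem_cons 0 x⟩

/-- the basic estimate -/
theorem near {x y z : Tr w} (hx : z ∈ T w x) (hy : z ∉ T w y) :
    w.a (List.length z) ≤ dist x y ∧ 1 ≤ List.length z ∧
      ∃ c ∈ T w y, dist z c ≤ w.a (List.length z + 1) := by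
  have hy' : (z : List ℕ) ∈ A (y : List ℕ) := by
    by_contra h; exact hy h
  refine ⟨le_min (w.anti (Nat.zero_le _)) (le_D w (mem_symmDiff.2 (Or.inr ⟨hy', hx⟩))), ?_, ?_⟩
  · rcases Nat.eq_zero_or_pos (List.length z) with h | h
    · exfalso
      have : (z : List ℕ) = [] := List.length_eq_zero_iff.1 h
      exact hx (this ▸ nil_mem x)
    · exact h
  · obtain ⟨i, hi⟩ := Infinite.exists_notMem_finset (List.toFinset (y : List ℕ))
    refine ⟨(i :: z : List ℕ), ?_, ?_⟩
    · intro h
      apply hi
      rw [List.mem_toFinset]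
      exact (mem_A.1 h).subset (List.mem_cons_self)
    · exact (min_le_right _ _).trans (D_cons w i z).le

/-- **Contraction estimate.** -/
theorem hausdorff_le (ψ : ℝ → ℝ) (hψ : ∀ n, 1 ≤ n → w.a (n + 1) ≤ ψ (w.a n))
    (hmono : ∀ s t, 0 < s → s ≤ t → ψ s ≤ ψ t) (x y : Tr w) :
    Metric.hausdorffEDist (T w x) (T w y) ≤ ENNReal.ofReal (ψ (dist x y)) := by
  have key : ∀ x y : Tr w, ∀ z ∈ T w x, ∃ c ∈ T w y, edist z c ≤ ENNReal.ofReal (ψ (dist x y)) := by
    intro x y z hz
    by_cases h : z ∈ T w y
    · exact ⟨z, h, by simp⟩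
    · obtain ⟨h1, h2, c, hc, h3⟩ := near w hz h
      refine ⟨c, hc, ?_⟩
      rw [edist_dist]
      apply ENNReal.ofReal_le_ofReal
      exact h3.trans ((hψ _ h2).trans (hmono _ _ (w.pos _) h1))
  apply Metric.hausdorffEDist_le_of_mem_edist
  · exact key x y
  · intro z hz
    rw [dist_comm]
    exact key y x z hz

end Pool.Agent.H93.Reich
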